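import Pool.Agent.FS.WeylEquality.Erg

/-! For a family of `l ≥ 3` polynomials whose members and differences all have the same degree, the
Host–Kra factor of order `l - 2` is characteristic in every Weyl system unless the polynomials are,
up to constants, rational multiples of one polynomial. -/

namespace Pool.Agent.Results.MP_467fc0_an.EqualityCase

open MeasureTheory Polynomial Pool.Agent.Lib.MP_467fc0_an Pool.Agent.FS.WeylEquality

theorem result (l δ : ℕ) (hl : 3 ≤ l) (hδ : 0 < δ) (p : Fin l → Polynomial ℤ)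
    (hp : ∀ i, (p i).natDegree = δ) (hp' : ∀ i j, i ≠ j → (p i - p j).natDegree = δ) :
    (∀ D : ℕ, 1 ≤ D → ∀ A : Matrix (Fin D) (Fin D) ℤ, IsNilpotent (A - 1) →
      ∀ (b : Fin D → UnitAddCircle) (T : Equiv.Perm (Fin D → UnitAddCircle)),
      (∀ x i, T x i = ∑ j, A i j • x j + b i) →
      (∃ Z : MeasurableSpace (Fin D → UnitAddCircle),
        @IsHostKraFactor _ Z MeasurableSpace.pi (Measure.pi fun _ => AddCircle.haarAddCircle) T
          (l - 2)) ∧
      ∀ Z : MeasurableSpace (Fin D → UnitAddCircle),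
        @IsHostKraFactor _ Z MeasurableSpace.pi (Measure.pi fun _ => AddCircle.haarAddCircle) T
          (l - 2) →
        @IsCharacteristic _ Z MeasurableSpace.pi l (Measure.pi fun _ => AddCircle.haarAddCircle) T
          p) ↔
    ¬∃ (q : Polynomial ℚ) (a c : Fin l → ℚ),
      ∀ i, (p i).map (Int.castRingHom ℚ) = C (a i) * q + C (c i) := by
  obtain ⟨k, rfl⟩ := Nat.exists_eq_add_of_le' hl
  constructor
  · rintro H ⟨q, a, c, h⟩
    obtain ⟨Q, j, h1, h2, h3⟩ := exists_rel (s := k + 2) hδ p hp h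
    obtain ⟨T, hT⟩ := exists_perm _ (pas_nil (k + 2))
    obtain ⟨⟨Z, hZ⟩, h4⟩ := H (k + 2 + 1) (by omega) _ (pas_nil _) 0 T hT
    exact not_char (d := k + 1) (by omega) (fun o => o.elim 0 p) Q rfl h1 h2 h3 hT Z hZ (h4 Z hZ)
  · rintro hn D - A hA b T hT
    obtain ⟨N, M, hW⟩ := exists_setup A b T hA hT
    refine ⟨⟨_, isHostKraFactor_Zf hW⟩,
      isCharacteristic_rigid hW hδ (fun o => o.elim 0 p) rfl ?_ hn⟩
    rintro (_ | a) (_ | c) hab
    · exact absurd rfl hab
    · simpa using hp c
    · simpa using hp a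
    · exact hp' a c fun h => hab (by rw [h])

end Pool.Agent.Results.MP_467fc0_an.EqualityCase
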