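import Pool.Agent.Lib.MP_467fc0_an.Lower

/-! The least order of a Host–Kra factor that is characteristic, for every Weyl system and every
essentially distinct family of `l` polynomials with `κ` separated pairs, is `l - κ`. -/

namespace Pool.Agent.Results.MP_467fc0_an.SeparatedPairs

open MeasureTheory Pool.Agent.Lib.MP_467fc0_an

theorem result (l κ d : ℕ) (hl : 2 ≤ l) (hκ : 1 ≤ κ) (hκl : 2 * κ ≤ l + 1) :
    (∀ p : Fin l → Polynomial ℤ, (∀ i, 0 < (p i).natDegree) →
      (∀ i j, i ≠ j → 0 < (p i - p j).natDegree) →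
      (∃ u v : Fin κ → Polynomial ℤ,
        (∀ s, u s ∈ insert 0 (Set.range p) ∧ v s ∈ insert 0 (Set.range p) ∧ u s ≠ v s) ∧
        ∀ s t, s ≠ t → (u s - v s).natDegree < (u s - u t).natDegree) →
      ∀ D : ℕ, 1 ≤ D → ∀ A : Matrix (Fin D) (Fin D) ℤ, IsNilpotent (A - 1) →
      ∀ (b : Fin D → UnitAddCircle) (T : Equiv.Perm (Fin D → UnitAddCircle)),
      (∀ x i, T x i = ∑ j, A i j • x j + b i) →
      (∃ Z : MeasurableSpace (Fin D → UnitAddCircle),
        @IsHostKraFactor _ Z MeasurableSpace.pi (Measure.pi fun _ => AddCircle.haarAddCircle) T d) ∧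
      ∀ Z : MeasurableSpace (Fin D → UnitAddCircle),
        @IsHostKraFactor _ Z MeasurableSpace.pi (Measure.pi fun _ => AddCircle.haarAddCircle) T d →
        @IsCharacteristic _ Z MeasurableSpace.pi l (Measure.pi fun _ => AddCircle.haarAddCircle) T
          p) ↔ l ≤ d + κ := by
  constructor
  · intro H
    by_contra hd
    obtain ⟨k, rfl⟩ := Nat.exists_eq_add_of_le' hκ
    obtain ⟨t, ht⟩ := Nat.exists_eq_add_of_le (show 2 * k + 1 ≤ l by omega)
    obtain ⟨ι, _, h1, h2⟩ := exists_extr k t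
    obtain ⟨P, Q, j, u, v, h0, hj, hP, hs, hr, hQ, hc⟩ :=
      h2.equiv (ι' := Option (Fin l)) (by simp; omega) none
    obtain ⟨j, rfl⟩ := Option.ne_none_iff_exists'.mp hj
    obtain ⟨T, hT⟩ := exists_perm _ (pas_nil (k + t))
    have hm : ∀ o, P o ∈ insert 0 (Set.range fun i => P (some i)) := by
      rintro (_ | i)
      · exact Or.inl h0
      · exact Or.inr ⟨i, rfl⟩
    obtain ⟨⟨Z, hZ⟩, h3⟩ := H (fun i => P (some i))
      (fun i => by simpa [h0] using hP (some i) none (by simp))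
      (fun i j h => hP _ _ (by simpa using h))
      ⟨fun s => P (u s), fun s => P (v s), fun s => ⟨hm _, hm _, fun e => by
        simpa [e] using hP _ _ (hs.1 s (Finset.mem_univ _)).2.2⟩,
        fun s t h => hs.2 s (Finset.mem_univ _) t (Finset.mem_univ _) h⟩
      (k + t + 1) (by omega) _ (pas_nil _) 0 T hT
    exact not_char (by omega) P Q h0 hr hQ hc hT Z hZ (h3 Z hZ)
  · rintro hd p hp hp' ⟨u, v, h1, h2⟩ D - A hA b T hT
    obtain ⟨k, rfl⟩ := Nat.exists_eq_add_of_le' (show 1 ≤ d by omega)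
    obtain ⟨N, M, hW⟩ := exists_setup A b T hA hT
    have hm : ∀ q ∈ insert 0 (Set.range p), ∃ o : Option (Fin l), o.elim 0 p = q := by
      rintro _ (rfl | ⟨i, rfl⟩)
      · exact ⟨none, rfl⟩
      · exact ⟨some i, rfl⟩
    choose u' hu using fun s => hm _ (h1 s).1
    choose v' hv using fun s => hm _ (h1 s).2.1
    refine ⟨⟨_, isHostKraFactor_Zf hW⟩, isCharacteristic_sep hW hd (fun o => o.elim 0 p) rfl ?_
      (u := u') (v := v') ⟨fun s _ => ⟨Finset.mem_univ _, Finset.mem_univ _, fun e =>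
        (h1 s).2.2 (by rw [← hu, ← hv, e])⟩, fun s _ t _ h => by simpa only [hu, hv] using h2 s t h⟩⟩
    rintro (_ | a) (_ | c) hab
    · exact absurd rfl hab
    · simpa using hp c
    · simpa using hp a
    · exact hp' a c fun h => hab (by rw [h])

end Pool.Agent.Results.MP_467fc0_an.SeparatedPairs
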